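import Pool.Agent.MDSLin.MeanT

/-!
# Q1 with `1 + ε` in the place of `1` is the Lindelöf hypothesis in the conductor aspect

The definitions are in `Pool/Agent/MDS/Defs.lean`, `Pool/Agent/MDS/ReachDefs.lean`,
`Pool/Agent/MDSM/Defs.lean` and `Pool/Agent/MDSLin/Defs.lean`.
-/

set_option autoImplicit false

open Pool.Agent.MDS Pool.Agent.MDSM Pool.Agent.MDSLin

namespace Pool.Agent.Results.MP_fed7ff_nt.LindelofCriterion

/-- The function `Lent d` is the entire continuation of `L(s, χ_d)`. For even `k ≥ 2` and `θ ≥ 1`,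
bounds `O((1 + |t|) ^ N X ^ c)`, `c > θ`, for the `k`-th absolute moment of `L(1/2 + i t, χ_d)`, the
same bounds in mean over `t`, the continuation of all `F_M` to the points `(1/2, ..., 1/2; c)`,
`c > θ`, and the continuation of `F_1` to points of weight at most `c`, for all `c > θ`, are
equivalent. The Lindelöf hypothesis in the conductor aspect is equivalent to the assertion of Q1 for
all `k` and `M` with every `(1/2, ..., 1/2; 1 + ε)` in the place of `(1/2, ..., 1/2; 1)`, and to the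
continuation of `F_1`, for arbitrarily large `k`, to points of weight at most `1 + ε`. The pointwise
exponent `μ` gives the continuation to `(1/2, ..., 1/2; c)` for `c > 1 + k μ`, the continuation to
these points for `c > θ` gives the pointwise exponent `θ / (2 ⌊k / 2⌋)`, and Q1 for one `k` and
`M = 1` gives the pointwise exponent `1 / (2 ⌊k / 2⌋)`. If `F_M` in `k + 1` variables extends to
`(1/2, ..., 1/2; c)` for all `c > θ`, where `θ ≥ 1/2`, then so do all `F_{Mn}` in `k` variables. -/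
theorem result :
    (∀ d : ℕ, IsFundDisc d → 1 < d →
      Differentiable ℂ (Lent d) ∧ ∀ s : ℂ, 1 < s.re → Lent d s = L d s) ∧
    (∀ k : ℕ, 2 ≤ k → Even k → ∀ θ : ℝ, 1 ≤ θ →
      [MomentBound k θ, MeanMomentBound k θ, ∀ M : ℕ, 1 ≤ M → Reaches k M θ,
        ∀ c > θ, ∃ x, ExtendsTo k 1 x ∧ weight x ≤ c].TFAE) ∧
    [PointBound 0, ∀ k M : ℕ, 1 ≤ k → 1 ≤ M → Reaches k M 1,
      ∀ k₀ : ℕ, ∃ k ≥ k₀, ∀ c > 1, ∃ x, ExtendsTo k 1 x ∧ weight x ≤ c].TFAE ∧
    (∀ μ : ℝ, 0 ≤ μ → PointBound μ → ∀ k M : ℕ, 1 ≤ k → 1 ≤ M → Reaches k M (1 + k * μ)) ∧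
    (∀ k : ℕ, 2 ≤ k → ∀ θ : ℝ, 1 ≤ θ → Reaches k 1 θ → PointBound (θ / (2 * (k / 2) : ℕ))) ∧
    (∀ k : ℕ, 2 ≤ k → Continues k 1 → PointBound (1 / (2 * (k / 2) : ℕ))) ∧
    (∀ k M n : ℕ, 1 ≤ M → 1 ≤ n → ∀ θ : ℝ, 1 / 2 ≤ θ → Reaches (k + 1) M θ → Reaches k (M * n) θ) :=
  ⟨fun _ hd h1 => Lent_spec hd h1, fun _ hk he _ hθ => moment_tfae' hk he hθ, lindelof_tfae,
    fun _ hμ h _ M hk _ => h.reaches hμ hk M, fun _ hk _ hθ h => h.pointBound hk hθ,
    fun _ hk h => pointBound_of_continues hk h, fun _ _ _ hM hn _ hθ h => h.descend hM hθ hn⟩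

end Pool.Agent.Results.MP_fed7ff_nt.LindelofCriterion
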