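import Pool.Agent.MDSM.Main

/-!
# Q1 is equivalent to asymptotic formulas for shifted moments, on average over the shifts

All definitions are in `Pool/Agent/MDS/Defs.lean`, `Pool/Agent/MDS/ReachDefs.lean` and
`Pool/Agent/MDSM/Defs.lean`.
-/

set_option autoImplicit false

open Pool.Agent.MDS Pool.Agent.MDSM

namespace Pool.Agent.Results.MP_fed7ff_nt.MomentCriterion

/-- The function `Lent d` is the entire continuation of `L(s, χ_d)`. For real `σ_1, ..., σ_k` and
`θ ≥ 0`, the function `F_M` extends, with polynomial bounds, to the points `(σ_1, ..., σ_k; c)` for all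
`c > θ`, if and only if some Riesz mean of the moments `∏ L(σ_j + i t_j, χ_d)` has for all `c > θ` an
asymptotic formula with error `O((1 + ‖t‖) ^ N X ^ c)`, if and only if this holds on average over the
shifts `t` and over `X`. The assertion of Q1 for `k` and `M` is equivalent to such a formula on the
critical line with `c < 1`, and Q1 for all `k` and `M` is equivalent to: for `M = 1` and arbitrarily
large `k` there is such a formula, on average over the shifts and over `X`, for one real vector `σ`,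
with an exponent smaller than `1 - (1/2) ∑ (σ_j - 1/2)`. -/
theorem result :
    (∀ d : ℕ, IsFundDisc d → 1 < d →
      Differentiable ℂ (Lent d) ∧ ∀ s : ℂ, 1 < s.re → Lent d s = L d s) ∧
    (∀ (k M : ℕ) (σ : Fin k → ℝ) (θ : ℝ), 0 ≤ θ →
      [∀ c > θ, ExtendsTo k M (σ, c), ∀ c > θ, Asymp k M σ c, ∀ c > θ, MeanAsymp k M σ c].TFAE) ∧
    (∀ k M : ℕ, [Continues k M, ∃ θ < 1, Asymp k M (fun _ => 1 / 2) θ,
      ∃ θ < 1, MeanAsymp k M (fun _ => 1 / 2) θ].TFAE) ∧
    ((∀ k M : ℕ, 1 ≤ k → 1 ≤ M → Continues k M) ↔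
      ∀ k₀ : ℕ, ∃ k ≥ k₀, ∃ (σ : Fin k → ℝ) (θ : ℝ),
        θ + (∑ j, (σ j - 1 / 2)) / 2 < 1 ∧ MeanAsymp k 1 σ θ) :=
  ⟨fun _ hd h1 => Lent_spec hd h1, fun k M σ _ hθ => dictionary k M σ hθ, continues_tfae, q1_iff⟩

end Pool.Agent.Results.MP_fed7ff_nt.MomentCriterion
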