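import Pool.Agent.MDSS.Defs
import Pool.Agent.MDSS.Unif
import Pool.Agent.MDSS.DeltaU
import Pool.Agent.MDSS.Mono
import Pool.Agent.MDSS.Pos

/-!
# Q1 does not depend on the weights of the square factors of the discriminants

The definitions are in `Pool/Agent/MDS/Defs.lean` and `Pool/Agent/MDSS/Defs.lean`.
-/

set_option autoImplicit false

namespace Pool.Agent.Results.MP_fed7ff_nt.SquareWeights

open Pool.Agent.MDS Pool.Agent.MDSS

/-- Besides the series of Q1, over the fundamental discriminants, consider the series over all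
positive non-square discriminants `D = d l ^ 2` (`d > 1` fundamental, `l ≥ 1`) with weights `c(l)`,
where `c` is moderate, i.e. `c(l) = O(l ^ κ)` for some `κ < 1`.

(a) Q1 for `k + 1` and `M = 1` implies the continuation in `k` variables, uniformly in `M`, for all
moderate weights.

(b) For every moderate `c`, the continuation in `k + 1` variables for `M = 1` implies the one in `k`
variables, uniformly in `M`.

(c) For even `k` and every admissible weight, the continuation in `k` variables, uniformly in `M`,
is equivalent to Q1 for `k` in its form uniform in `M`; and this implies the continuation, uniformly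
in `M`, for all moderate weights.

(d) For every `k` and every admissible weight `c ≥ 0`, the continuation of the series with weights
`c` in `k + 1` variables for `M = 1` implies Q1 for `k`, uniformly in `M`, and the same for all
moderate weights.

(e) For every admissible `c`, Q1 for all `k` and `M` is equivalent to the continuation of the series
with weights `c` for `M = 1` and arbitrarily large `k`.

The weight `c = 1`, all positive non-square discriminants, is admissible. -/
theorem result :
    (∀ k : ℕ, 1 ≤ k → Continues (k + 1) 1 → ∀ c : ℕ → ℂ, Moderate c → UniformB c k) ∧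
    (∀ k : ℕ, 1 ≤ k → ∀ c : ℕ → ℂ, Moderate c → ContinuesB c (k + 1) 1 → UniformB c k) ∧
    (∀ k : ℕ, 1 ≤ k → Even k →
      (∀ c : ℕ → ℂ, Admissible c → (UniformB c k ↔ ContinuesUniformly k)) ∧
      (ContinuesUniformly k → ∀ b : ℕ → ℂ, Moderate b → UniformB b k)) ∧
    (∀ k : ℕ, 1 ≤ k → ∀ c : ℕ → ℂ, Admissible c →
      (∀ l : ℕ, 1 ≤ l → 0 ≤ (c l).re ∧ (c l).im = 0) → ContinuesB c (k + 1) 1 →
      ContinuesUniformly k ∧ ∀ b : ℕ → ℂ, Moderate b → UniformB b k) ∧
    (∀ c : ℕ → ℂ, Admissible c → ((∀ k M : ℕ, 1 ≤ k → 1 ≤ M → Continues k M) ↔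
      ∀ k₀ : ℕ, ∃ k ≥ k₀, ContinuesB c k 1)) ∧
    Admissible (fun _ => 1) := by
  have ha : ∀ k : ℕ, 1 ≤ k → Continues (k + 1) 1 → ∀ c : ℕ → ℂ, Moderate c → UniformB c k := by
    intro k hk h c hc
    obtain ⟨hd, d', hd', hinv⟩ := admissible_delta
    have h1 : ContinuesB dl (k + 1) 1 := (continuesB_delta le_rfl).mpr h
    obtain ⟨ε, hε, Ψ, hΨ⟩ := flat_family_two hk hd hd' hinv (uniformC_of_succ hd h1)
      (momentBound_of_continues hk h) hc
    exact (uniformC_of_flat hc hε (by linarith) hΨ).uniformB
  have hc : ∀ k : ℕ, 1 ≤ k → Even k → ∀ c : ℕ → ℂ, Admissible c → UniformB c k →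
      ∀ b : ℕ → ℂ, Moderate b → UniformB b k := by
    intro k hk he c hc h b hb
    obtain ⟨hcm, c', hc', hinv⟩ := hc
    obtain ⟨m, rfl⟩ := he
    have hC := h.uniformC hcm
    have hMB := momentBound_one (by omega : 1 ≤ m) hcm hc' hinv hC
    obtain ⟨ε, hε, Ψ, hΨ⟩ := flat_family_two hk hcm hc' hinv hC hMB hb
    exact (uniformC_of_flat hb hε (by linarith) hΨ).uniformB
  have hd : ∀ k : ℕ, 1 ≤ k → ∀ c : ℕ → ℂ, Admissible c →
      (∀ l : ℕ, 1 ≤ l → 0 ≤ (c l).re ∧ (c l).im = 0) → ContinuesB c (k + 1) 1 →
      ∀ b : ℕ → ℂ, Moderate b → UniformB b k := by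
    intro k hk c hca h0 h b hb
    rcases Nat.even_or_odd k with he | ⟨m, hm⟩
    · exact hc k hk he c hca (uniformC_of_succ hca.1 h).uniformB b hb
    · obtain ⟨hcm, c', hc', hinv⟩ := hca
      have h1 : 0 < (c 1).re := by
        refine lt_of_le_of_ne (h0 1 le_rfl).1 fun h2 => ?_
        have h3 : c 1 = 0 := Complex.ext h2.symm (h0 1 le_rfl).2
        have h4 := hinv 1 le_rfl
        simp [h3] at h4
      have e : k + 1 = (m + 1) + (m + 1) := by omega
      have hMB : Pool.Agent.MDSLin.MomentBound k 1 := by
        refine Pool.Agent.MDSLin.MomentBound.down le_rfl ?_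
        rw [e] at h ⊢
        exact momentBound_of_pos hcm h0 h1 h
      obtain ⟨ε, hε, Ψ, hΨ⟩ := flat_family_two hk hcm hc' hinv (uniformC_of_succ hcm h) hMB hb
      exact (uniformC_of_flat hb hε (by linarith) hΨ).uniformB
  refine ⟨ha, fun k _ c hcm h => (uniformC_of_succ hcm h).uniformB, ?_, ?_, ?_, admissible_one⟩
  · intro k hk he
    have h1 : ContinuesUniformly k → ∀ b : ℕ → ℂ, Moderate b → UniformB b k := fun h =>
      hc k hk he dl admissible_delta (uniformB_delta.mpr h)
    exact ⟨fun c hca => ⟨fun h => uniformB_delta.mp (hc k hk he c hca h dl moderate_delta),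
      fun h => h1 h c hca.1⟩, h1⟩
  · intro k hk c hca h0 h
    exact ⟨uniformB_delta.mp (hd k hk c hca h0 h dl moderate_delta), hd k hk c hca h0 h⟩
  · intro c hca
    constructor
    · intro h k₀
      exact ⟨k₀ + 1, Nat.le_succ _, (ha (k₀ + 1) (by omega) (h (k₀ + 2) 1 (by omega) le_rfl) c
        hca.1).continuesB le_rfl⟩
    · intro h k M hk hM
      obtain ⟨k', hk', hx⟩ := h (2 * k + 1)
      have h1 : ContinuesB c (2 * k + 1) 1 := hx.descend hca.1 le_rfl hk'
      have h2 : UniformB dl (2 * k) := hc (2 * k) (by omega) (even_two_mul k) c hca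
        (uniformC_of_succ hca.1 h1).uniformB dl moderate_delta
      have h3 : Continues (2 * k) M := (continuesB_delta hM).mp (h2.continuesB hM)
      exact h3.descend hM (by omega)

end Pool.Agent.Results.MP_fed7ff_nt.SquareWeights
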