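import Pool.Agent.MDS.Reach
import Pool.Agent.MDS.DescentMain

/-!
# Q1 is equivalent to extending `F_M` to any one point of weight at most `1`

All definitions are in `Pool/Agent/MDS/Defs.lean` and `Pool/Agent/MDS/ReachDefs.lean`.
-/

set_option autoImplicit false

open Pool.Agent.MDS

namespace Pool.Agent.Results.MP_fed7ff_nt.WeightCriterion

/-- Let `W(s_1, ..., s_k; w) = w + (1/2) ∑ (s_j - 1/2)`. For `k ≥ 2`, the function `F_M` extends (with
polynomial bounds) to a tube domain containing `(1/2, ..., 1/2; c)` if and only if it extends to a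
tube domain containing some point of weight at most `c`. In particular Q1 for `k ≥ 2` and `M` is the
assertion that `F_M` extends to some point with `W ≤ 1`, and Q1 for all `k` and `M` is this assertion
for `M = 1` and arbitrarily large `k`. -/
theorem result :
    (∀ k M : ℕ, 2 ≤ k → ∀ c : ℝ,
      (ExtendsTo k M (fun _ => 1 / 2, c) ↔ ∃ x, ExtendsTo k M x ∧ weight x ≤ c)) ∧
    (∀ k M : ℕ, 2 ≤ k → (Continues k M ↔ ∃ x, ExtendsTo k M x ∧ weight x ≤ 1)) ∧
    ((∀ k M : ℕ, 1 ≤ k → 1 ≤ M → Continues k M) ↔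
      ∀ k₀ : ℕ, ∃ k : ℕ, k₀ ≤ k ∧ ∃ x, ExtendsTo k 1 x ∧ weight x ≤ 1) := by
  have h1 : ∀ k M : ℕ, 2 ≤ k → ∀ c : ℝ,
      (ExtendsTo k M (fun _ => 1 / 2, c) ↔ ∃ x, ExtendsTo k M x ∧ weight x ≤ c) := by
    intro k M hk c
    constructor
    · intro h
      exact ⟨_, h, by simp [weight]⟩
    · rintro ⟨x, hx, hw⟩
      exact hx.center hk hw
  have h2 : ∀ k M : ℕ, 2 ≤ k → (Continues k M ↔ ∃ x, ExtendsTo k M x ∧ weight x ≤ 1) := by
    intro k M hk
    rw [continues_iff, h1 k M hk 1]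
  refine ⟨h1, h2, ?_⟩
  constructor
  · intro h k₀
    refine ⟨k₀ + 2, by omega, ?_⟩
    rw [← h2 (k₀ + 2) 1 (by omega)]
    exact h (k₀ + 2) 1 (by omega) le_rfl
  · intro h k M hk hM
    obtain ⟨k', hk', hx⟩ := h (k + 2)
    have h3 : Continues k' 1 := (h2 k' 1 (by omega)).mpr hx
    exact (continuesUniformly_of_succ (h3.descend le_rfl (by omega : k + 1 ≤ k'))).continues M hM

end Pool.Agent.Results.MP_fed7ff_nt.WeightCriterion
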